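import Mathlib
import Pool.Agent.U178.AK.Lgt

/-!
# Brody and Kobayashi hyperbolicity of affine varieties, for maps of bounded complexity

Let `X` be a closed algebraic subset of `ℂ ^ n`, with any singularities. We consider the holomorphic
maps from domains in the complex plane to `X` of complexity at most `(s, r, e, d)`: on some nonempty
open set their coordinates are polynomials in `z`, `1 / q(z)` and the solutions of `s` successive
linear systems `y_l' = A_l y_l`, of size `r`, where the entries of `A_l` are polynomials in `z`,
`1 / q(z)` and the entries of `y_1, ..., y_{l-1}`.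

For these maps the following properties are equivalent: the entire curves in `X` are constant (Brody
hyperbolicity); the infinitesimal Kobayashi metric of `X` is bounded below on compact subsets of `X`
(Kobayashi hyperbolicity); there are no nonconstant morphisms from the punctured line to `X`. They
hold if `X` is Brody hyperbolic, and if all positive-dimensional closed subvarieties of `X` are of
logarithmic general type. So both (1) and (2) of the question imply that `X` is Kobayashi hyperbolic
for these maps. There is no condition on the boundary of `X` in a compactification. (For noncompact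
complex manifolds Brody hyperbolicity does not imply Kobayashi hyperbolicity.)

Proof. By the library `Pool.Agent.V1153.UG` a map of bounded complexity to a variety without curves
of the punctured line of bounded degree is given by algebraic functions of bounded degree. If there
were no bound for the derivative at the centre of the discs, scaling at the centre would give
holomorphic maps on larger and larger discs, algebraic of bounded degree, which are bounded on the
unit disc but not close to constants there. Algebraic functions of bounded degree which are bounded
on the unit disc are locally bounded (`Pool.Agent.U178.AK.growth`). Hence there is a limit, a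
nonconstant polynomial curve of bounded degree.
-/

set_option autoImplicit false

namespace Pool.Agent.Results.MP_dc0411_ag.AffineKobayashi

open MvPolynomial Set
open Pool.Agent.U178.AK

variable {n : ℕ} {ι : Type}

/-- all holomorphic maps from the complex plane to `X` are constant -/
def BrodyHyperbolic (F : ι → MvPolynomial (Fin n) ℂ) : Prop :=
  ∀ f, HolMap F univ f → ∀ z w, f z = f w

theorem not_bound {F : ι → MvPolynomial (Fin n) ℂ} {N : ℕ} {P : Fin n → Polynomial ℂ} {k : ℕ}
    (h : GmCurve F N P k) : ∃ x, ∀ C, ¬ KobayashiBound F 1 2 N 0 {x} C := by
  obtain ⟨h1, h2, z, w, h3⟩ := exp_curve h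
  by_contra hcon
  push Not at hcon
  apply h3
  exact const_of_deriv h1.diff (fun a => by
    obtain ⟨C, hC⟩ := hcon (fun j => (P j).eval (Complex.exp a) / Complex.exp a ^ k)
    exact deriv_zero h1 h2 hC rfl) z w

theorem fixed [Finite ι] {F : ι → MvPolynomial (Fin n) ℂ} (hno : ∀ N P k, ¬ GmCurve F N P k)
    (s r e d : ℕ) {K : Set (Fin n → ℂ)} (hK : IsCompact K) :
    ∃ C, KobayashiBound F s r e d K C := by
  cases nonempty_fintype ι
  obtain ⟨N, hN⟩ := akob n (Finset.univ.sup fun i => (F i).totalDegree) s r e d
  obtain ⟨C, hC⟩ := hN Unit (univ ×ˢ K) (isCompact_univ.prod hK) ι (fun _ => F)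
    (fun _ i => Finset.le_sup (f := fun i => (F i).totalDegree) (Finset.mem_univ i))
    (fun i => (MvPolynomial.continuous_eval (F i)).comp continuous_snd)
    (fun _ _ P k => hno N P k)
  refine ⟨C, fun U f hf hc a R hR haU hfa => ?_⟩
  exact hC () U f hf hc a R hR haU ⟨mem_univ _, hfa⟩

/-- (1) For all `n`, `D` and `(s, r, e, d)` there is `N` such that for every family of closed subsets
`X_t` of `ℂ ^ n`, given by polynomials of degree at most `D` depending continuously on `t`, and every
compact set `K` of pairs `(t, x)` the following holds: if for `(t, x) ∈ K` there are no nonconstant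
morphisms of degree at most `N` from the punctured line to `X_t`, then there is one constant `C` such
that the infinitesimal Kobayashi metric of `X_t` at `x`, for the maps of complexity at most
`(s, r, e, d)`, is at least `1 / C` times the norm, for all `(t, x) ∈ K` with `x ∈ X_t`.

Let `X = {F = 0}` be a closed algebraic subset of `ℂ ^ n`.

(2) If there is a nonconstant morphism of degree at most `N` from the punctured line to `X`, then
there is no such bound at some point of `X`, for the maps of complexity at most `(1, 2, N, 0)`.

(3) The following conditions are equivalent: there are no nonconstant morphisms from the punctured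
line to `X`; the entire curves of bounded complexity in `X` are constant; for all `(s, r, e, d)` the
infinitesimal Kobayashi metric for the maps of complexity at most `(s, r, e, d)` is bounded below on
the compact subsets of `X`; for all `e` it is positive at all points for the maps of complexity at
most `(1, 2, e, 0)`.

(4) The conditions in (3) hold if `X` is Brody hyperbolic, and also if all positive-dimensional closed
subvarieties of `X` are of logarithmic general type. -/
theorem result (n : ℕ) :
    (∀ D s r e d : ℕ, ∃ N : ℕ, ∀ (T : Type) [TopologicalSpace T] (K : Set (T × (Fin n → ℂ))),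
      IsCompact K → ∀ (ι : Type) (F : T → ι → MvPolynomial (Fin n) ℂ),
        (∀ t i, (F t i).totalDegree ≤ D) →
        (∀ i, Continuous fun p : T × (Fin n → ℂ) => eval p.2 (F p.1 i)) →
        (∀ p ∈ K, ∀ P k, ¬ GmCurve (F p.1) N P k) →
          ∃ C : ℝ, ∀ t, KobayashiBound (F t) s r e d {x | (t, x) ∈ K} C) ∧
    ∀ (ι : Type) (F : ι → MvPolynomial (Fin n) ℂ), Finite ι →
      (∀ N P k, GmCurve F N P k → ∃ x, ∀ C, ¬ KobayashiBound F 1 2 N 0 {x} C) ∧
      [∀ N P k, ¬ GmCurve F N P k,
        ∀ (s r e d : ℕ) (f : ℂ → Fin n → ℂ), HolMap F univ f → Complexity s r e d univ f →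
          ∀ z w, f z = f w,
        ∀ (s r e d : ℕ) (K : Set (Fin n → ℂ)), IsCompact K → ∃ C, KobayashiBound F s r e d K C,
        ∀ (e : ℕ) (x : Fin n → ℂ), ∃ C, KobayashiBound F 1 2 e 0 {x} C].TFAE ∧
      (BrodyHyperbolic F ∨ AllLogGeneralType F →
        ∀ (s r e d : ℕ) (K : Set (Fin n → ℂ)), IsCompact K →
          ∃ C, KobayashiBound F s r e d K C) := by
  refine ⟨fun D s r e d => akob n D s r e d, fun ι F _ => ⟨fun N P k => not_bound, ?_, ?_⟩⟩
  · tfae_have 1 → 3 := fun h s r e d K hK => fixed h s r e d hK
    tfae_have 3 → 4 := fun h e x => h 1 2 e 0 {x} isCompact_singleton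
    tfae_have 4 → 1 := by
      intro h N P k hP
      obtain ⟨x, hx⟩ := not_bound hP
      obtain ⟨C, hC⟩ := h N x
      exact hx C hC
    tfae_have 3 → 2 := by
      intro h s r e d f hf hc z w
      refine const_of_deriv hf.diff (fun a => ?_) z w
      obtain ⟨C, hC⟩ := h s r e d {f a} isCompact_singleton
      exact deriv_zero hf hc hC rfl
    tfae_have 2 → 1 := by
      intro h N P k hP
      obtain ⟨h1, h2, z, w, h3⟩ := exp_curve hP
      exact h3 (h 1 2 N 0 _ h1 h2 z w)
    tfae_finish
  · intro h s r e d K hK
    refine fixed (fun N P k hP => ?_) s r e d hK
    rcases h with h | h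
    · obtain ⟨h1, -, z, w, h3⟩ := exp_curve hP
      exact h3 (h _ h1 z w)
    · obtain ⟨L, _, _, y, hy, hgt⟩ := sub_of_gm hP
      exact hgt (h L 1 y le_rfl hy)

end Pool.Agent.Results.MP_dc0411_ag.AffineKobayashi
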