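import Pool.Agent.U647.GB.Brd

/-!
# Brody hyperbolic affine surfaces over complex tori

Let `V` be an irreducible affine surface: `y` is its generic point in homogeneous coordinates, with
function field `K`, `VarPts ℂ y` is (the cone over) its closure in projective space, and `V` is the
part `AffPts y` with `x₀ ≠ 0`. We assume (`OverTorus y`) that the closure of `V` has a nonconstant
holomorphic map `α` to a complex torus of any dimension (for instance the Albanese map, if the closure
is an irregular surface), such that the points at infinity lie in a Brody hyperbolic projective set
(for instance curves of genus at least two) or in finitely many fibres of `α`: so the components of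
the boundary which are contracted by `α` may be arbitrary curves. The fibres of `α` are assumed to lie
in the members of a nonconstant pencil, which is always the case for algebraic `α`.

The following are equivalent:

* (1) `V` is Brody hyperbolic;
* all closed curves in `V` are of log general type (condition (2) for curves);
* for all points `x` of `V` there are only finitely many morphisms `φ` from `G_m` to `V` with
  `φ(1) = x` (condition (3) for `C = G_m`).

So both condition (2), for all closed subvarieties of positive dimension, and condition (3) imply
condition (1), and condition (1) implies condition (2) for all closed curves in `V`.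
-/

set_option autoImplicit false

open MvPolynomial

namespace Pool.Agent.Results.MP_dc0411_ag.AffineSurfacesOverTori

open Pool.Agent.W602.GT (coords)
open Pool.Agent.N154.TB (BrodyHyp)
open Pool.Agent.U647.GB (OverTorus AffPts SpecialCurves PointedGmFinite AllLogGeneral brody_tfae)

theorem result {n : ℕ} {K : Type} [Field K] [Algebra ℂ K] (y : Fin (n + 1) → K) (hy0 : y 0 ≠ 0)
    (hgen : coords ℂ y = ⊤) (hw : Algebra.trdeg ℂ K = (2 : ℕ)) (hT : OverTorus y) :
    [BrodyHyp (AffPts y), SpecialCurves y = ∅, PointedGmFinite y].TFAE ∧
      (AllLogGeneral y → BrodyHyp (AffPts y)) :=
  brody_tfae hy0 hgen hw hT

end Pool.Agent.Results.MP_dc0411_ag.AffineSurfacesOverTori
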