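import Mathlib
import Pool.Agent.U707.SL.Gm

set_option autoImplicit false

/-!
# Affine varieties: pointed curves with the source `G_m` and families of points

Let `V` and `V'` be closed subsets of affine `n`-space over a field `k` of characteristic zero, the
zeros of polynomials `F_i` and `G_l` with monomials in a finite set `A`. We consider families of
points of `V(L)`, for arbitrary extension fields `L` of `k`, indexed by arbitrary groups `H`, which
are given by iterated recurrences of complexity `(s, r, e)` (`IterVec s r e x`): there are matrices
`X_1(h), …, X_s(h)` in `GL_r(L)` such that for every `g` in `H` the entries of `X_l(g h) X_l(h)⁻¹` are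
for all `h` the values of polynomials over `L`, of degree at most `e` in each variable and depending
only on `g`, at the entries of `X_i(h)`, `X_i(h)⁻¹`, `i < l`, and the coordinates of `x(h)` are the
values of such polynomials at the entries of all `X_i(h)`, `X_i(h)⁻¹`.

**Theorem.** There is a number `B n A s r e`, which depends on nothing else, such that for all `k`,
`V` and `V'` the following are equivalent:

* all nonconstant curves in `V` with the source `G_m`, over all extension fields of `k`, lie in `V'`
  (`GmIn`);
* every family of points of `V(L)` given by iterated recurrences of complexity `(s, r, e)`, for all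
  groups and all extension fields `L` of `k`, has at most `B n A s r e` points outside of `V'`, for
  all `s, r, e` (`FamiliesBoundedA`);
* every sequence of points of `V(L)` indexed by the integers and given by recurrences of complexity
  `(1, 1, e)` has finitely many points outside of `V'`, for all finite extensions `L` of `k` and
  all `e` (`SequencesFiniteA`);
* for all points `a` of affine `n`-space outside of `V'`, over finite extensions `L` of `k`, there are
  only finitely many morphisms `G_m → V` over `L` with the value `a` at `1` (`PointedFinite`).

If `k = ℂ` and all nonconstant entire curves in `V` lie in `V'` (`EntireIn`), then these conditions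
hold.

So, for affine varieties over the complex numbers, both condition (1) of the problem (Brody
hyperbolicity, `V'` empty) and condition (3) (finiteness of the pointed morphisms from curves) imply
a bound for the numbers of the points in these families which depends neither on the coefficients of
the equations of `V` nor on the field, and such bounds are equivalent to condition (3) for the curve
`C = G_m`.

Method (project R393/UA of the library, based on Y377): ultraproducts of families and the theory of
iterated recurrences.
-/

namespace Pool.Agent.Results.MP_dc0411_ag.PointedGmCurves

open MvPolynomial Pool.Agent.R393.UA Pool.Agent.U707.SL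

/-- **Pointed curves with the source `G_m` and families of points.** -/
theorem result : ∃ B : (n : ℕ) → Finset (Fin n →₀ ℕ) → ℕ → ℕ → ℕ → ℕ,
    (∀ (k : Type) [Field k] [CharZero k] (n : ℕ) (A : Finset (Fin n →₀ ℕ)) (ι κ : Type)
      (F : ι → MvPolynomial (Fin n) k) (G : κ → MvPolynomial (Fin n) k),
      (∀ i, (F i).support ⊆ A) → (∀ l, (G l).support ⊆ A) →
      List.TFAE [GmIn F G, FamiliesBoundedA (B n A) F G, SequencesFiniteA F G,
        PointedFinite F G]) ∧
    (∀ (n : ℕ) (ι κ : Type) (F : ι → MvPolynomial (Fin n) ℂ) (G : κ → MvPolynomial (Fin n) ℂ),
      EntireIn F G → GmIn F G) := by
  refine ⟨fun n A => BA A, fun k _ _ n A ι κ F G hF hG => ?_, fun n ι κ F G => gm_of_entire⟩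
  tfae_have 1 → 2 := boundedA_of_gm F G hF hG
  tfae_have 2 → 3 := seqA_of_bounded
  tfae_have 3 → 1 := gm_of_seqA F G
  tfae_have 1 → 4 := pointed_of_gm F G
  tfae_have 4 → 1 := gm_of_pointed F G
  tfae_finish

end Pool.Agent.Results.MP_dc0411_ag.PointedGmCurves
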