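import Pool.Agent.U207.QH.Ptd
import Pool.Agent.Results.MP_dc0411_ag.SmoothHypersurfacesSuffice

/-!
# Brody hyperbolic, general type, pointed curves: intersections of quadrics suffice

(1) Let `X = V(S)` be any projective variety in `P^n`, `n ≥ 1` (any dimension and any singularities),
given by forms of degree at most `d`, `d ≥ 3`, and `v : P^n → P^N` the Veronese embedding of degree `d`.
For all `c ≥ (2 (N + 1)^3 + 6 N + 5)^2` there are quadratic forms `P_i` and linear forms `ℓ_i`, `i < c`,
such that the covering of `P^N` with group `(ℤ/2)^c`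

`Y : x_i^2 = P_i(h_0, …, h_N), i < c`, in `P^{N+c}`,

is a smooth complete intersection of `c` quadrics, `P_i = ℓ_i^2` on `v(X)`, so that `Y` contains the
`2^c` copies `x_i = ± ℓ_i(h)`, `h ∈ v(X)`, of `X`. Every nonconstant entire curve in `Y` lies in one of
these copies, every closed subvariety of `Y` of positive dimension is of general type or contained in a
copy, and for some number `A` every morphism from a smooth projective curve of genus `g` to `Y` has
degree at most `A max (2 g - 2, 0)` or has its image in a copy. So each of the three conditions (Brody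
hyperbolic, all subvarieties of general type, finiteness of pointed maps from curves) holds for `Y` if
and only if it holds for `X`. For quasi-projective varieties `U = V(S) ∖ V(T)` there is a set `T'` of forms
on `P^N` such that the smooth variety `W = Y ∖ V(T')` contains `2^c` copies of `U`, and the conditions 1
and 2 hold for `W` if and only if they hold for `U`.

(2) Let `E N` be infinite sets of numbers. The equivalence of the three conditions for all projective
varieties over `ℂ` (smooth or not) is equivalent to their equivalence for these smooth `Y`, `c ∈ E N`. The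
equivalence of 1 and 2 for all quasi-projective varieties is equivalent to their equivalence for the
smooth varieties `Y ∖ V(T)`, `T` a set of forms on `P^N`.

Proof. See `Pool/Agent/U207/QC` and `Pool/Agent/U207/QH`. `v(X)` is given by quadratic forms whose
Jacobian matrix has large rank, `P_i = (∑_j a_i^j h_j)^2 + ∑_t a_i^{B + κ t} Q_t(h)`, where the `Q_t` are
generic combinations of these forms and the `a_i` are generic numbers. `P_i(h)` is the value at the
node `a_i` of a polynomial `F_h` in one variable with coefficients depending on `h`. Along a curve, the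
method of Büchi's problem (Vojta, Pasten) shows that `F_h = q^2 H`, where the ratios of the values of `H`
have bounded degree (resp. are constant). An argument with the derivative shows that the `h_i / h_0` are
algebraic over the field generated by these ratios unless all `Q_t(h)` are zero, and Noetherian
induction gives the bound for their degrees. If infinitely many maps from a pointed curve are not in the
copies, they have bounded degree, and there is a rational curve in `Y` (bend and break); by the degree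
bound it is in a copy of `X`, and then there are infinitely many pointed maps to `X`.
-/

set_option autoImplicit false

namespace Pool.Agent.Results.MP_dc0411_ag.QuadricCoversSuffice

open MvPolynomial FF
open Pool.Agent.W602.GT (SubVar GeneralType)
open Pool.Agent.W603.LV (canDeg)
open Pool.Agent.W603.PV (pht)
open Pool.Agent.N254.SQ (IsForm OnCurves OnSpecial PointedFinite Monomials veronese OnCurvesQ
  OnSpecialQ)
open Pool.Agent.U207.QC (hI xI coverForm coverEqs SmoothCover Signs)

/-- the three conditions are equivalent for `V(S)`: all entire curves are constant; all closed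
subvarieties of positive dimension are of general type; finiteness of pointed maps from curves -/
def ThreeConditions {n : ℕ} (S : Set (MvPolynomial (Fin (n + 1)) ℂ)) : Prop :=
  [OnCurves S 1, OnSpecial S 1, PointedFinite S].TFAE

section proof

open Pool.Agent.U207.QH

variable {n N d c : ℕ} {m : Fin (N + 1) → Fin (n + 1) → ℕ}
  {S : Set (MvPolynomial (Fin (n + 1)) ℂ)} {P ℓ : Fin c → MvPolynomial (Fin (N + 1)) ℂ}

theorem three_iff (hg : GoodA n N d c m S P ℓ) :
    ThreeConditions (coverEqs P) ↔ ThreeConditions S := by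
  unfold ThreeConditions
  rw [propext (clA_curves.one hg), propext (clA_special.one hg), propext (ptd_iff hg)]

/-- quasi-projective varieties -/
theorem quasi_one {J : ∀ n : ℕ, Set (MvPolynomial (Fin (n + 1)) ℂ) →
    Set (MvPolynomial (Fin (n + 1)) ℂ) → MvPolynomial (Fin (n + 1)) ℂ → Prop}
    (hT : Pool.Agent.U207.QC.CovT J) (hg : GoodA n N d c m S P ℓ)
    {T : Set (MvPolynomial (Fin (n + 1)) ℂ)} {T' : Set (MvPolynomial (Fin (N + 1)) ℂ)}
    (hl : Pool.Agent.N254.SQ.Lifts m d T T') :
    J (N + c) (coverEqs P) (rename (hI N c) '' T') 1 ↔ J n S T 1 := by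
  rw [hT n N d c m S P ℓ hg.toC T T' hl 1 ⟨0, isHomogeneous_one _ _⟩]
  have h1 : ∀ ℓ' : Fin c → MvPolynomial (Fin (N + 1)) ℂ,
      Pool.Agent.N254.SQ.pull m (Pool.Agent.U207.QC.sbl ℓ' 1) = 1 := by
    intro ℓ'
    unfold Pool.Agent.U207.QC.sbl
    rw [map_one]
    exact map_one _
  simp only [h1]
  exact ⟨fun h => h ℓ (Pool.Agent.U207.QC.Signs.refl ℓ), fun h _ _ => h⟩

end proof

open Pool.Agent.U207.QC in
open Pool.Agent.U207.QH in
theorem result :
    (∀ n d : ℕ, 1 ≤ n → 3 ≤ d → ∃ (N : ℕ) (m : Fin (N + 1) → Fin (n + 1) → ℕ),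
      Monomials n N d m ∧ ∀ c, (2 * (N + 1) ^ 3 + 6 * N + 5) ^ 2 ≤ c →
        ∀ S : Set (MvPolynomial (Fin (n + 1)) ℂ), (∀ p ∈ S, ∃ e ≤ d, p.IsHomogeneous e) →
        ∃ P ℓ : Fin c → MvPolynomial (Fin (N + 1)) ℂ,
          (∀ i, (P i).IsHomogeneous 2) ∧ (∀ i, (ℓ i).IsHomogeneous 1) ∧ SmoothCover P ∧
          (∀ x : Fin (n + 1) → ℂ, (∀ p ∈ S, eval x p = 0) →
            ∀ i, eval (veronese m x) (P i) = eval (veronese m x) (ℓ i) ^ 2) ∧
          (∀ f : ℂ → Fin (N + c + 1) → ℂ, Differentiable ℂ f → (∀ z, f z ≠ 0) →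
            (∀ z i, eval (f z) (coverForm P i) = 0) → (∀ z w, ∃ s : ℂ, f w = s • f z) ∨
              ∀ z, ∃ x : Fin (n + 1) → ℂ, x ≠ 0 ∧ (∀ p ∈ S, eval x p = 0) ∧
                f z ∘ hI N c = veronese m x) ∧
          (∀ (L : Type) [Field L] [Algebra ℂ L] (w : ℕ) (y : Fin (N + c + 1) → L), 1 ≤ w →
            SubVar (coverForm P) L w y → GeneralType ℂ L w ∨
              ∃ (ℓ' : Fin c → MvPolynomial (Fin (N + 1)) ℂ) (x : Fin (n + 1) → L) (c₀ : L),
                Signs ℓ ℓ' ∧ x ≠ 0 ∧ c₀ ≠ 0 ∧ (∀ p ∈ S, aeval x p = 0) ∧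
                y ∘ hI N c = c₀ • veronese m x ∧
                ∀ i, y (xI N c i) = c₀ * aeval (veronese m x) (ℓ' i)) ∧
          (∃ A : ℕ, ∀ (E : Type) [Field E] [Algebra ℂ E] [IsFF ℂ E] (y : Fin (N + c + 1) → E),
            y ≠ 0 → (∀ i, aeval y (coverForm P i) = 0) →
            pht ℂ y ≤ A * max (canDeg ℂ E) 0 ∨
              ∃ (ℓ' : Fin c → MvPolynomial (Fin (N + 1)) ℂ) (x : Fin (n + 1) → E) (c₀ : E),
                Signs ℓ ℓ' ∧ x ≠ 0 ∧ c₀ ≠ 0 ∧ (∀ p ∈ S, aeval x p = 0) ∧
                y ∘ hI N c = c₀ • veronese m x ∧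
                ∀ i, y (xI N c i) = c₀ * aeval (veronese m x) (ℓ' i)) ∧
          (OnCurves (coverEqs P) 1 ↔ OnCurves S 1) ∧
          (OnSpecial (coverEqs P) 1 ↔ OnSpecial S 1) ∧
          (PointedFinite (coverEqs P) ↔ PointedFinite S) ∧
          ∀ T : Set (MvPolynomial (Fin (n + 1)) ℂ), (∀ H ∈ T, IsForm H) →
            ∃ T' : Set (MvPolynomial (Fin (N + 1)) ℂ), (∀ H ∈ T', IsForm H) ∧
              (T.Finite → T'.Finite) ∧
              (∀ x : Fin (n + 1) → ℂ, (∀ H ∈ T', eval (veronese m x) H = 0) ↔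
                ∀ H ∈ T, eval x H = 0) ∧
              (OnCurvesQ (coverEqs P) (rename (hI N c) '' T') 1 ↔ OnCurvesQ S T 1) ∧
              (OnSpecialQ (coverEqs P) (rename (hI N c) '' T') 1 ↔ OnSpecialQ S T 1)) ∧
    ∀ E : ℕ → Set ℕ, (∀ N, (E N).Infinite) →
      ((∀ (n : ℕ) (S : Set (MvPolynomial (Fin (n + 1)) ℂ)), (∀ p ∈ S, IsForm p) →
          ThreeConditions S) ↔
        ∀ (N c : ℕ) (P : Fin c → MvPolynomial (Fin (N + 1)) ℂ), c ∈ E N →
          (∀ i, (P i).IsHomogeneous 2) → SmoothCover P → ThreeConditions (coverEqs P)) ∧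
      ((∀ (n : ℕ) (S T : Set (MvPolynomial (Fin (n + 1)) ℂ)), (∀ p ∈ S, IsForm p) →
          (∀ H ∈ T, IsForm H) → (OnCurvesQ S T 1 ↔ OnSpecialQ S T 1)) ↔
        ∀ (N c : ℕ) (P : Fin c → MvPolynomial (Fin (N + 1)) ℂ), c ∈ E N →
          (∀ i, (P i).IsHomogeneous 2) → SmoothCover P →
          ∀ T : Set (MvPolynomial (Fin (N + 1)) ℂ), (∀ H ∈ T, IsForm H) →
            (OnCurvesQ (coverEqs P) (rename (hI N c) '' T) 1 ↔
              OnSpecialQ (coverEqs P) (rename (hI N c) '' T) 1)) := by
  refine ⟨?_, fun E hE => ⟨⟨fun h N c P _ hP _ => h (N + c) _ (covEqs_form hP), fun h => ?_⟩,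
    ⟨fun h N c P _ hP _ T hT => h (N + c) _ _ (covEqs_form hP) (clsC_all.ren N c T hT),
      fun h n S T hS hT => ?_⟩⟩⟩
  · intro n d hn hd
    obtain ⟨N, m, hm, -, h⟩ := consA n d hn hd
    refine ⟨N, m, ⟨hm.deg, hm.inj, hm.surj⟩, fun c hc S hS1 => ?_⟩
    obtain ⟨P, ℓ, hsm, hg⟩ := h c hc S hS1
    refine ⟨P, ℓ, hg.toC.homP, hg.toC.homL, hsm, fun x hx i => hg.toC.sub ℂ x hx i,
      hg.toC.curves, sub_sheet hg.toC, alg_sheet hg, clA_curves.one hg, clA_special.one hg,
      ptd_iff hg, fun T hT => ?_⟩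
    obtain ⟨T', hT', hfin, hl⟩ := exists_liftT hm hg.toC.hd1 T hT
    exact ⟨T', hT', hfin, lifts_zero hg.toC.hd1 hl, quasi_one covT_curves hg hl,
      quasi_one covT_special hg hl⟩
  · exact all_ofA hE (W := fun _ S => ThreeConditions S)
      (fun S _ => Pool.Agent.Results.MP_dc0411_ag.SmoothHypersurfacesSuffice.three_zero S)
      (fun n S S' hSS hW =>
        Pool.Agent.Results.MP_dc0411_ag.SmoothHypersurfacesSuffice.three_congr hSS hW)
      (fun n N d c m S P ℓ hg => (three_iff hg).1) h
  · rcases Nat.eq_zero_or_pos n with hn | hn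
    · subst hn
      exact ⟨fun _ =>
          (Pool.Agent.Results.MP_dc0411_ag.SmoothHypersurfacesSuffice.quasi_zero S T).2,
        fun _ => (Pool.Agent.Results.MP_dc0411_ag.SmoothHypersurfacesSuffice.quasi_zero S T).1⟩
    · obtain ⟨S₀, d, hSame, hd3, hd⟩ := Pool.Agent.N254.SQ.qi_same S hS
      obtain ⟨N, m, hm, hN⟩ := Pool.Agent.N254.SQ.t_num n d hn hd3
      obtain ⟨c, hcE, hcc⟩ := (hE N).exists_gt (cN N)
      obtain ⟨P, ℓ, hsm, hg⟩ := exists_coverA hn hd3 hm hN S₀ hd c hcc.le
      obtain ⟨T', hT', -, hl⟩ := exists_liftT hm hg.toC.hd1 T hT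
      have h1 := h N c P hcE hg.toC.homP hsm T' hT'
      rw [quasi_one covT_curves hg hl, quasi_one covT_special hg hl] at h1
      have m1 : ∀ {J : ∀ n : ℕ, Set (MvPolynomial (Fin (n + 1)) ℂ) →
          Set (MvPolynomial (Fin (n + 1)) ℂ) → MvPolynomial (Fin (n + 1)) ℂ → Prop}, Exc0 J →
          (J n S₀ T 1 ↔ J n S T 1) := fun hJ =>
        ⟨hJ.mono n S₀ S T (fun L _ _ x hx => (hSame L x).2 hx) 1,
          hJ.mono n S S₀ T (fun L _ _ x hx => (hSame L x).1 hx) 1⟩
      rw [← m1 (exc0_of Pool.Agent.N254.SQ.t_qcurv),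
        ← m1 (exc0_of (Pool.Agent.N254.SQ.t_qspec Pool.Agent.N254.SQ.t_cent))]
      exact h1

end Pool.Agent.Results.MP_dc0411_ag.QuadricCoversSuffice
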